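import Pool.Agent.Y122.TQ.Defs

set_option autoImplicit false

/-!
Project TQ (helper122), tasks TH2 and ODD: theta functions over all `n` from odd `n`.
-/

namespace Pool.Agent.Y79.TQ

open Finset Filter Topology MeasureTheory
open Pool.Agent.H306R2.RZ (js)
open Pool.Agent.H306R2.RG
open Pool.Agent.Y122.TQ

lemma abs_js_le (k : ℤ) (n : ℕ) : |js k n| ≤ 1 := by
  unfold js
  rcases jacobiSym.trichotomy k n with h | h | h <;> rw [h] <;> simp

lemma fam_facts (φ : FD) (hφ : Fam φ) : |φ.η| ≤ 1 ∧ φ.a ≤ 1 := by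
  obtain ⟨ε, _, h⟩ := hφ
  rcases h with rfl | rfl | rfl | rfl
  · refine ⟨?_, ?_⟩
    · simp [F8]
    · simp only [F8]; split_ifs <;> omega
  · refine ⟨?_, ?_⟩
    · simp [F4]
    · simp only [F4]; split_ifs <;> omega
  · refine ⟨?_, ?_⟩
    · simp [F1]
    · simp only [F1]; split_ifs <;> omega
  · refine ⟨?_, ?_⟩
    · simp [F1]
    · simp only [F1]; split_ifs <;> omega

lemma abs_jo_le (φ : FD) (d n : ℕ) : |jo φ d n| ≤ 1 := by
  unfold jo
  split_ifs
  · exact abs_js_le _ _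
  · simp

lemma abs_cf_le (φ : FD) (hφ : Fam φ) (d n : ℕ) : |cf φ d n| ≤ 1 := by
  unfold cf
  rw [abs_mul, abs_pow]
  have h1 : |φ.η| ^ n.factorization 2 ≤ 1 := pow_le_one₀ (abs_nonneg _) (fam_facts φ hφ).1
  calc |φ.η| ^ n.factorization 2 * |jo φ d (n / 2 ^ n.factorization 2)| ≤ 1 * 1 :=
        mul_le_mul h1 (abs_jo_le φ d _) (abs_nonneg _) zero_le_one
    _ = 1 := one_mul 1

/-! ### general theta series -/

/-- theta series with coefficients `c` -/
noncomputable def TS (c : ℕ → ℝ) (a : ℕ) (v : ℝ) : ℝ :=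
  ∑' n : ℕ, c (n + 1) * ((n : ℝ) + 1) ^ a * Real.exp (-(Real.pi * ((n : ℝ) + 1) ^ 2 * v))

lemma term_le {c : ℕ → ℝ} {a : ℕ} (hc : ∀ n, |c n| ≤ 1) (ha : a ≤ 1) (v v0 : ℝ) (hv0 : 0 < v0)
    (hv : v0 ≤ v) (n : ℕ) :
    |c (n + 1) * ((n : ℝ) + 1) ^ a * Real.exp (-(Real.pi * ((n : ℝ) + 1) ^ 2 * v))|
      ≤ Real.exp (-(Real.pi * v)) * (((n : ℝ) + 1) * Real.exp (-(Real.pi * v0)) ^ n) := by
  have hpi : 0 < Real.pi := Real.pi_pos
  have hn : (0 : ℝ) ≤ n := Nat.cast_nonneg n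
  have hn1 : (1 : ℝ) ≤ (n : ℝ) + 1 := by linarith
  rw [abs_mul, abs_mul, abs_of_pos (Real.exp_pos _), abs_of_nonneg (by positivity :
    (0 : ℝ) ≤ ((n : ℝ) + 1) ^ a)]
  have h0 : ((n : ℝ) + 1) ^ a ≤ (n : ℝ) + 1 := by
    calc ((n : ℝ) + 1) ^ a ≤ ((n : ℝ) + 1) ^ 1 := pow_le_pow_right₀ hn1 ha
      _ = (n : ℝ) + 1 := pow_one _
  have hexp : Real.exp (-(Real.pi * ((n : ℝ) + 1) ^ 2 * v)) ≤
      Real.exp (-(Real.pi * v)) * Real.exp (-(Real.pi * v0)) ^ n := by
    rw [← Real.exp_nat_mul, ← Real.exp_add]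
    apply Real.exp_le_exp.mpr
    have h1 : v + n * v0 ≤ ((n : ℝ) + 1) ^ 2 * v := by
      have h2 : (n : ℝ) * v0 ≤ n * v := mul_le_mul_of_nonneg_left hv hn
      nlinarith [mul_nonneg hn (hv0.le.trans hv), mul_nonneg (mul_nonneg hn hn) (hv0.le.trans hv)]
    have h3 := mul_le_mul_of_nonneg_left h1 hpi.le
    nlinarith
  calc |c (n + 1)| * ((n : ℝ) + 1) ^ a * Real.exp (-(Real.pi * ((n : ℝ) + 1) ^ 2 * v))
      ≤ (1 * ((n : ℝ) + 1)) * (Real.exp (-(Real.pi * v)) * Real.exp (-(Real.pi * v0)) ^ n) := by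
        refine mul_le_mul (mul_le_mul (hc _) h0 (by positivity) zero_le_one) hexp
          (Real.exp_pos _).le (by positivity)
    _ = _ := by ring

lemma summable_geo (v0 : ℝ) (hv0 : 0 < v0) :
    Summable fun n : ℕ => ((n : ℝ) + 1) * Real.exp (-(Real.pi * v0)) ^ n := by
  have hlt : Real.exp (-(Real.pi * v0)) < 1 := by
    rw [Real.exp_lt_one_iff]
    have : 0 < Real.pi * v0 := by positivity
    linarith
  have hnorm : ‖Real.exp (-(Real.pi * v0))‖ < 1 := by
    rw [Real.norm_eq_abs, abs_of_pos (Real.exp_pos _)]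
    exact hlt
  have h1 := summable_pow_mul_geometric_of_norm_lt_one 1 hnorm
  have h2 := summable_geometric_of_lt_one (Real.exp_pos _).le hlt
  refine (h1.add h2).congr fun n => ?_
  rw [pow_one]
  ring

/-- the constant -/
noncomputable def GG (v0 : ℝ) : ℝ := ∑' n : ℕ, ((n : ℝ) + 1) * Real.exp (-(Real.pi * v0)) ^ n

lemma GG_nonneg (v0 : ℝ) : 0 ≤ GG v0 := tsum_nonneg fun n => by positivity

section

variable {c : ℕ → ℝ} {a : ℕ} (hc : ∀ n, |c n| ≤ 1) (ha : a ≤ 1)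

include hc ha

lemma summable_term {v : ℝ} (hv : 0 < v) :
    Summable fun n : ℕ => c (n + 1) * ((n : ℝ) + 1) ^ a *
      Real.exp (-(Real.pi * ((n : ℝ) + 1) ^ 2 * v)) :=
  Summable.of_norm_bounded ((summable_geo v hv).mul_left _) fun n => by
    rw [Real.norm_eq_abs]
    exact term_le hc ha v v hv le_rfl n

lemma TS_bound {v v0 : ℝ} (hv0 : 0 < v0) (hv : v0 ≤ v) :
    |TS c a v| ≤ GG v0 * Real.exp (-(Real.pi * v)) := by
  have hs2 := (summable_geo v0 hv0).mul_left (Real.exp (-(Real.pi * v)))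
  have h := tsum_of_norm_bounded hs2.hasSum (fun n => by
    rw [Real.norm_eq_abs]
    exact term_le hc ha v v0 hv0 hv n)
  rw [Real.norm_eq_abs, tsum_mul_left, mul_comm] at h
  exact h

lemma TS_cont : ContinuousOn (TS c a) (Set.Ioi 0) := by
  intro y hy
  have hy' : (0 : ℝ) < y := hy
  have hcont : ContinuousOn (TS c a) (Set.Ioi (y / 2)) := by
    unfold TS
    refine continuousOn_tsum
      (u := fun n : ℕ => ((n : ℝ) + 1) * Real.exp (-(Real.pi * (y / 2))) ^ n)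
      (fun n => by fun_prop) (summable_geo (y / 2) (by positivity)) ?_
    intro n x hx
    have hx' : y / 2 ≤ x := le_of_lt hx
    rw [Real.norm_eq_abs]
    refine (term_le hc ha x (y / 2) (by positivity) hx' n).trans ?_
    have h1 : Real.exp (-(Real.pi * x)) ≤ 1 := by
      rw [Real.exp_le_one_iff]
      have : 0 < Real.pi * x := mul_pos Real.pi_pos (by linarith)
      linarith
    calc Real.exp (-(Real.pi * x)) * (((n : ℝ) + 1) * Real.exp (-(Real.pi * (y / 2))) ^ n)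
        ≤ 1 * (((n : ℝ) + 1) * Real.exp (-(Real.pi * (y / 2))) ^ n) :=
          mul_le_mul_of_nonneg_right h1 (by positivity)
      _ = _ := one_mul _
  exact (hcont.continuousAt (Ioi_mem_nhds (by linarith))).continuousWithinAt

lemma TS_int {w x : ℝ} (hw : 0 < w) (hx : x ≤ 0) :
    IntegrableOn (fun v => TS c a v * v ^ x) (Set.Ioi w) := by
  have h1 := (exp_neg_integrableOn_Ioi w Real.pi_pos).const_mul (GG w * w ^ x)
  refine Integrable.mono' h1 ?_ ?_
  · refine ContinuousOn.aestronglyMeasurable ?_ measurableSet_Ioi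
    refine ContinuousOn.mul ((TS_cont hc ha).mono fun v hv => hw.trans hv) ?_
    intro v hv
    exact (Real.continuousAt_rpow_const v x (Or.inl (hw.trans hv).ne')).continuousWithinAt
  · refine (ae_restrict_iff' measurableSet_Ioi).2 (Filter.Eventually.of_forall fun v hv => ?_)
    have hv' : w < v := hv
    have hv0 : 0 < v := hw.trans hv'
    rw [norm_mul, Real.norm_eq_abs, Real.norm_eq_abs, abs_of_pos (Real.rpow_pos_of_pos hv0 x)]
    have h2 := TS_bound hc ha hw hv'.le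
    have h3 : v ^ x ≤ w ^ x := Real.rpow_le_rpow_of_nonpos hw hv'.le hx
    calc |TS c a v| * v ^ x ≤ (GG w * Real.exp (-(Real.pi * v))) * w ^ x :=
          mul_le_mul h2 h3 (Real.rpow_pos_of_pos hv0 x).le
            (mul_nonneg (GG_nonneg w) (Real.exp_pos _).le)
      _ = GG w * w ^ x * Real.exp (-Real.pi * v) := by
          rw [neg_mul]
          ring

end

/-! ### the two theta functions -/

lemma vt_eq (φ : FD) (d : ℕ) (v : ℝ) : vt φ d v = TS (cf φ d) φ.a v := rfl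

lemma vto_eq (φ : FD) (d : ℕ) (v : ℝ) : vto φ d v = TS (jo φ d) φ.a v := rfl

lemma cf_odd (φ : FD) (d k : ℕ) : cf φ d (2 * k + 1) = jo φ d (2 * k + 1) := by
  unfold cf
  have h : (2 * k + 1).factorization 2 = 0 := by
    apply Nat.factorization_eq_zero_of_not_dvd
    omega
  rw [h, pow_zero, pow_zero, one_mul, Nat.div_one]

lemma cf_zero (φ : FD) (d : ℕ) : cf φ d 0 = 0 := by
  unfold cf jo
  simp

lemma jo_even (φ : FD) (d k : ℕ) : jo φ d (2 * k) = 0 := by
  unfold jo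
  rw [if_neg]
  rw [Nat.not_odd_iff_even]
  exact even_two_mul k

lemma cf_even (φ : FD) (d k : ℕ) : cf φ d (2 * k) = φ.η * cf φ d k := by
  rcases Nat.eq_zero_or_pos k with rfl | hk
  · rw [Nat.mul_zero, cf_zero, mul_zero]
  unfold cf
  have h : (2 * k).factorization 2 = k.factorization 2 + 1 := by
    rw [Nat.factorization_mul (by norm_num) (by omega), Finsupp.add_apply,
      Nat.Prime.factorization_self Nat.prime_two, add_comm]
  have h2 : 2 * k / 2 ^ (k.factorization 2 + 1) = k / 2 ^ (k.factorization 2) := by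
    rw [pow_succ', Nat.mul_div_mul_left _ _ (by norm_num)]
  rw [h, h2, pow_succ']
  ring

/-- all `n` against odd `n` -/
lemma vt_split (φ : FD) (hφ : Fam φ) (d : ℕ) {v : ℝ} (hv : 0 < v) :
    vt φ d v = vto φ d v + φ.η * 2 ^ φ.a * vt φ d (4 * v) := by
  have ha := (fam_facts φ hφ).2
  set f : ℕ → ℝ := fun n => cf φ d n * (n : ℝ) ^ φ.a * Real.exp (-(Real.pi * (n : ℝ) ^ 2 * v)) with hf
  set g : ℕ → ℝ := fun n => cf φ d n * (n : ℝ) ^ φ.a * Real.exp (-(Real.pi * (n : ℝ) ^ 2 * (4 * v)))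
    with hg
  set h : ℕ → ℝ := fun n => jo φ d n * (n : ℝ) ^ φ.a * Real.exp (-(Real.pi * (n : ℝ) ^ 2 * v)) with hh
  have hfs : Summable f := by
    rw [← summable_nat_add_iff 1]
    refine (summable_term (abs_cf_le φ hφ d) ha hv).congr fun n => ?_
    simp only [hf]
    push_cast
    rfl
  have hgs : Summable g := by
    rw [← summable_nat_add_iff 1]
    refine (summable_term (abs_cf_le φ hφ d) ha (by positivity : 0 < 4 * v)).congr fun n => ?_
    simp only [hg]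
    push_cast
    rfl
  have hhs : Summable h := by
    rw [← summable_nat_add_iff 1]
    refine (summable_term (abs_jo_le φ d) ha hv).congr fun n => ?_
    simp only [hh]
    push_cast
    rfl
  have ef : vt φ d v = ∑' n, f n := by
    rw [hfs.tsum_eq_zero_add]
    have : f 0 = 0 := by simp only [hf]; rw [cf_zero]; ring
    rw [this, zero_add]
    unfold vt
    refine tsum_congr fun n => ?_
    simp only [hf]
    push_cast
    rfl
  have eg : vt φ d (4 * v) = ∑' n, g n := by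
    rw [hgs.tsum_eq_zero_add]
    have : g 0 = 0 := by simp only [hg]; rw [cf_zero]; ring
    rw [this, zero_add]
    unfold vt
    refine tsum_congr fun n => ?_
    simp only [hg]
    push_cast
    rfl
  have eh : vto φ d v = ∑' n, h n := by
    rw [hhs.tsum_eq_zero_add]
    have : h 0 = 0 := by
      simp only [hh]
      have := jo_even φ d 0
      rw [Nat.mul_zero] at this
      rw [this]; ring
    rw [this, zero_add]
    unfold vto
    refine tsum_congr fun n => ?_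
    simp only [hh]
    push_cast
    rfl
  have i2 : Function.Injective fun k : ℕ => 2 * k := fun a b hab => by
    have : 2 * a = 2 * b := hab
    omega
  have i3 : Function.Injective fun k : ℕ => 2 * k + 1 := fun a b hab => by
    have : 2 * a + 1 = 2 * b + 1 := hab
    omega
  have s1 := tsum_even_add_odd (hfs.comp_injective i2) (hfs.comp_injective i3)
  have s2 := tsum_even_add_odd (hhs.comp_injective i2) (hhs.comp_injective i3)
  rw [ef, eg, eh, ← s1, ← s2]
  have e1 : ∀ k, f (2 * k) = φ.η * 2 ^ φ.a * g k := by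
    intro k
    simp only [hf, hg]
    rw [cf_even]
    push_cast
    rw [mul_pow]
    have : Real.pi * (2 * (k : ℝ)) ^ 2 * v = Real.pi * (k : ℝ) ^ 2 * (4 * v) := by ring
    rw [this]
    ring
  have e2 : ∀ k, h (2 * k) = 0 := by
    intro k
    simp only [hh]
    rw [jo_even]
    ring
  have e3 : ∀ k, f (2 * k + 1) = h (2 * k + 1) := by
    intro k
    simp only [hf, hh]
    rw [cf_odd]
  rw [tsum_congr e1, tsum_congr e2, tsum_congr e3, tsum_zero, tsum_mul_left]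
  ring

/-! ### TH2 -/

lemma rpow_four (a : ℕ) {v : ℝ} (hv : 0 < v) :
    (2 ^ a) ^ 2 * (4 * v) ^ (-((a : ℝ) + 1 / 2)) = 1 / 2 * v ^ (-((a : ℝ) + 1 / 2)) := by
  have h4 : (4 : ℝ) ^ (1 / 2 : ℝ) = 2 := by
    rw [show (4 : ℝ) = 2 ^ (2 : ℝ) by norm_num, ← Real.rpow_mul (by norm_num)]
    norm_num
  have h5 : (4 : ℝ) ^ (-((a : ℝ) + 1 / 2)) = ((4 : ℝ) ^ a)⁻¹ * (1 / 2) := by
    rw [Real.rpow_neg (by norm_num), Real.rpow_add (by norm_num), Real.rpow_natCast, h4, mul_inv]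
    norm_num
  rw [Real.mul_rpow (by norm_num) hv.le, h5]
  have h6 : ((2 : ℝ) ^ a) ^ 2 = 4 ^ a := by
    rw [← pow_mul, mul_comm, pow_mul]
    norm_num
  rw [h6]
  have h7 : (4 : ℝ) ^ a ≠ 0 := by positivity
  field_simp

lemma base_ineq {a : ℕ} (ha : a ≤ 1) {v : ℝ} (hv : 1 ≤ v) :
    Real.exp (-(Real.pi * v)) ^ 2 ≤ v ^ (-((a : ℝ) + 1 / 2)) * Real.exp (-v) := by
  have hv0 : 0 < v := by linarith
  have h1 : v ^ ((a : ℝ) + 1 / 2) ≤ v ^ (2 : ℝ) := by
    apply Real.rpow_le_rpow_of_exponent_le hv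
    have : (a : ℝ) ≤ 1 := by exact_mod_cast ha
    linarith
  have h2 : v ^ (2 : ℝ) ≤ Real.exp (2 * v) := by
    rw [Real.rpow_def_of_pos hv0]
    apply Real.exp_le_exp.2
    have := Real.log_le_sub_one_of_pos hv0
    nlinarith
  have h3 : 0 < v ^ ((a : ℝ) + 1 / 2) := Real.rpow_pos_of_pos hv0 _
  rw [Real.rpow_neg hv0.le, inv_mul_eq_div, le_div_iff₀ h3]
  calc Real.exp (-(Real.pi * v)) ^ 2 * v ^ ((a : ℝ) + 1 / 2)
      ≤ Real.exp (-(Real.pi * v)) ^ 2 * Real.exp (2 * v) := by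
        apply mul_le_mul_of_nonneg_left (h1.trans h2) (by positivity)
    _ = Real.exp (2 * v - 2 * (Real.pi * v)) := by
        rw [← Real.exp_nat_mul, ← Real.exp_add]
        congr 1
        push_cast
        ring
    _ ≤ Real.exp (-v) := by
        apply Real.exp_le_exp.2
        nlinarith [mul_lt_mul_of_pos_right Real.pi_gt_three hv0]

theorem TH2 (h : S_TH1) : S_TH2 := by
  intro φ hφ
  obtain ⟨C, hC, h1⟩ := h φ hφ
  obtain ⟨hη, ha⟩ := fam_facts φ hφ
  set M : ℝ := max 12 (GG 1 ^ 2 / C) with hM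
  have hM12 : 12 ≤ M := le_max_left _ _
  have hMG : GG 1 ^ 2 ≤ M * C := by
    rw [← div_le_iff₀ hC]
    exact le_max_right _ _
  refine ⟨M * C, by positivity, fun Y hY v hv => ?_⟩
  have hY3 : (3 : ℝ) ≤ Y := by exact_mod_cast hY
  have hlog : 1 ≤ Real.log Y := by
    have h3 : Real.exp 1 ≤ 3 := by linarith [Real.exp_one_lt_d9]
    rw [Real.le_log_iff_exp_le (by linarith)]
    linarith
  have hlog3 : 1 ≤ Real.log Y ^ 3 := one_le_pow₀ hlog
  have base : ∀ v : ℝ, 1 ≤ v → ∑ d ∈ Icc 1 Y, vt φ d v ^ 2 ≤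
      M * C * Y * Real.log Y ^ 3 * v ^ (-((φ.a : ℝ) + 1 / 2)) * Real.exp (-v) := by
    intro v hv1
    have hterm : ∀ d ∈ Icc 1 Y, vt φ d v ^ 2 ≤ GG 1 ^ 2 * Real.exp (-(Real.pi * v)) ^ 2 := by
      intro d _
      rw [vt_eq, ← mul_pow, ← sq_abs]
      exact pow_le_pow_left₀ (abs_nonneg _) (TS_bound (abs_cf_le φ hφ d) ha one_pos hv1) 2
    have hb := base_ineq ha hv1
    calc ∑ d ∈ Icc 1 Y, vt φ d v ^ 2 ≤ ∑ _d ∈ Icc 1 Y, GG 1 ^ 2 * Real.exp (-(Real.pi * v)) ^ 2 :=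
          sum_le_sum hterm
      _ = Y * (GG 1 ^ 2 * Real.exp (-(Real.pi * v)) ^ 2) := by
          rw [sum_const, Nat.card_Icc, Nat.add_sub_cancel, nsmul_eq_mul]
      _ ≤ Y * ((M * C) * (v ^ (-((φ.a : ℝ) + 1 / 2)) * Real.exp (-v))) := by
          apply mul_le_mul_of_nonneg_left _ (by linarith)
          exact mul_le_mul hMG hb (by positivity) (by positivity)
      _ ≤ Y * ((M * C) * (v ^ (-((φ.a : ℝ) + 1 / 2)) * Real.exp (-v))) * Real.log Y ^ 3 :=
          le_mul_of_one_le_right (by positivity) hlog3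
      _ = _ := by ring
  have step : ∀ n : ℕ, ∀ v : ℝ, 1 / (8 * (Y : ℝ)) ≤ v → 1 ≤ 4 ^ n * v →
      ∑ d ∈ Icc 1 Y, vt φ d v ^ 2 ≤
      M * C * Y * Real.log Y ^ 3 * v ^ (-((φ.a : ℝ) + 1 / 2)) * Real.exp (-v) := by
    intro n
    induction n with
    | zero =>
      intro v _ h2
      rw [pow_zero, one_mul] at h2
      exact base v h2
    | succ n ih =>
      intro v hv h2
      have hv0 : 0 < v := lt_of_lt_of_le (by positivity) hv
      have ih' := ih (4 * v) (by linarith) (by rw [pow_succ] at h2; linarith)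
      have hto := h1 Y hY v hv
      have hterm : ∀ d ∈ Icc 1 Y, vt φ d v ^ 2 ≤
          3 * vto φ d v ^ 2 + 3 / 2 * (2 ^ φ.a) ^ 2 * vt φ d (4 * v) ^ 2 := by
        intro d _
        rw [vt_split φ hφ d hv0]
        set x := vto φ d v
        set y := vt φ d (4 * v)
        have h3 : (x + φ.η * 2 ^ φ.a * y) ^ 2 ≤ 3 * x ^ 2 + 3 / 2 * (φ.η * 2 ^ φ.a * y) ^ 2 := by
          nlinarith [sq_nonneg (2 * x - φ.η * 2 ^ φ.a * y)]
        have h4 : φ.η ^ 2 ≤ 1 := by
          rw [← sq_abs]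
          exact pow_le_one₀ (abs_nonneg _) hη
        have h5 : (φ.η * 2 ^ φ.a * y) ^ 2 ≤ (2 ^ φ.a) ^ 2 * y ^ 2 := by
          have h6 : 0 ≤ ((2 : ℝ) ^ φ.a) ^ 2 * y ^ 2 := by positivity
          calc (φ.η * 2 ^ φ.a * y) ^ 2 = φ.η ^ 2 * ((2 ^ φ.a) ^ 2 * y ^ 2) := by ring
            _ ≤ 1 * ((2 ^ φ.a) ^ 2 * y ^ 2) := mul_le_mul_of_nonneg_right h4 h6
            _ = _ := one_mul _
        linarith
      have hr := rpow_four φ.a hv0
      have hexp : Real.exp (-(4 * v)) ≤ Real.exp (-v) := by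
        apply Real.exp_le_exp.2
        linarith
      set R : ℝ := v ^ (-((φ.a : ℝ) + 1 / 2)) with hR
      have hR0 : 0 < R := Real.rpow_pos_of_pos hv0 _
      set K : ℝ := C * Y * Real.log Y ^ 3 with hK
      have hK0 : 0 < K := by positivity
      calc ∑ d ∈ Icc 1 Y, vt φ d v ^ 2
          ≤ ∑ d ∈ Icc 1 Y, (3 * vto φ d v ^ 2 + 3 / 2 * (2 ^ φ.a) ^ 2 * vt φ d (4 * v) ^ 2) :=
            sum_le_sum hterm
        _ = 3 * ∑ d ∈ Icc 1 Y, vto φ d v ^ 2 +
            3 / 2 * (2 ^ φ.a) ^ 2 * ∑ d ∈ Icc 1 Y, vt φ d (4 * v) ^ 2 := by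
            rw [sum_add_distrib, ← mul_sum, ← mul_sum]
        _ ≤ 3 * (K * R * Real.exp (-v)) + 3 / 2 * (2 ^ φ.a) ^ 2 *
            (M * K * (4 * v) ^ (-((φ.a : ℝ) + 1 / 2)) * Real.exp (-(4 * v))) := by
            refine add_le_add (mul_le_mul_of_nonneg_left (hto.trans (le_of_eq (by rw [hK, hR])))
              (by norm_num)) (mul_le_mul_of_nonneg_left (ih'.trans (le_of_eq (by rw [hK]; ring)))
              (by positivity))
        _ = 3 * (K * R * Real.exp (-v)) + 3 / 4 * M * K * R * Real.exp (-(4 * v)) := by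
            linear_combination (3 / 2 * M * K * Real.exp (-(4 * v))) * hr
        _ ≤ 3 * (K * R * Real.exp (-v)) + 3 / 4 * M * K * R * Real.exp (-v) := by
            gcongr
        _ = (3 + 3 / 4 * M) * (K * R * Real.exp (-v)) := by ring
        _ ≤ M * (K * R * Real.exp (-v)) := by
            apply mul_le_mul_of_nonneg_right _ (by positivity)
            linarith
        _ = _ := by rw [hK]; ring
  have hv0 : 0 < v := lt_of_lt_of_le (by positivity) hv
  obtain ⟨n, hn⟩ := pow_unbounded_of_one_lt (1 / v) (by norm_num : (1 : ℝ) < 4)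
  have hn' : 1 ≤ 4 ^ n * v := by
    rw [div_lt_iff₀ hv0] at hn
    exact hn.le
  refine le_trans (sum_le_sum_of_subset_of_nonneg ?_ fun _ _ _ => sq_nonneg _) (step n v hv hn')
  classical
  intro d hd
  unfold Om at hd
  exact (Finset.mem_filter.1 hd).1

/-! ### ODD -/

theorem ODD : S_ODD := by
  intro φ hφ d _ δ hδ hδ4 w hw
  obtain ⟨hη, ha⟩ := fam_facts φ hφ
  have haR : (φ.a : ℝ) ≤ 1 := by exact_mod_cast ha
  have hx : xe φ δ ≤ 0 := by
    unfold xe
    linarith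
  set x := xe φ δ with hxd
  have hxe : 2 * x = 1 / 2 + δ + φ.a - 2 := by
    rw [hxd]
    unfold xe
    ring
  have i1 : IntegrableOn (fun v => vt φ d v * v ^ x) (Set.Ioi w) :=
    TS_int (abs_cf_le φ hφ d) ha hw hx
  have i2 : IntegrableOn (fun v => vt φ d v * v ^ x) (Set.Ioi (4 * w)) :=
    TS_int (abs_cf_le φ hφ d) ha (by positivity) hx
  have i3 : IntegrableOn (fun v => vt φ d (4 * v) * (4 * v) ^ x) (Set.Ioi w) :=
    (integrableOn_Ioi_comp_mul_left_iff (fun v => vt φ d v * v ^ x) w (by norm_num : (0 : ℝ) < 4)).2 i2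
  have e1 : ∫ v in Set.Ioi w, vto φ d v * v ^ x = ∫ v in Set.Ioi w, (vt φ d v * v ^ x -
      φ.η * 2 ^ φ.a * (4 : ℝ) ^ (-x) * (vt φ d (4 * v) * (4 * v) ^ x)) := by
    refine setIntegral_congr_fun measurableSet_Ioi fun v hv => ?_
    have hv0 : 0 < v := hw.trans hv
    have h4 : (4 : ℝ) ^ (-x) * (4 * v) ^ x = v ^ x := by
      rw [Real.mul_rpow (by norm_num) hv0.le, ← mul_assoc, ← Real.rpow_add (by norm_num)]
      simp
    have h5 := vt_split φ hφ d hv0
    show vto φ d v * v ^ x = vt φ d v * v ^ x -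
      φ.η * 2 ^ φ.a * (4 : ℝ) ^ (-x) * (vt φ d (4 * v) * (4 * v) ^ x)
    rw [h5]
    linear_combination (φ.η * 2 ^ φ.a * vt φ d (4 * v)) * h4
  have e2 : ∫ v in Set.Ioi w, vt φ d (4 * v) * (4 * v) ^ x =
      4⁻¹ * ∫ v in Set.Ioi (4 * w), vt φ d v * v ^ x := by
    have := integral_comp_mul_left_Ioi (fun v => vt φ d v * v ^ x) w (by norm_num : (0 : ℝ) < 4)
    rw [smul_eq_mul] at this
    exact this
  have e3 : (2 : ℝ) ^ φ.a * (4 : ℝ) ^ (-x) * 4⁻¹ = (2 : ℝ) ^ (-(1 / 2 + δ)) := by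
    have h4 : (4 : ℝ) ^ (-x) = (2 : ℝ) ^ (-(2 * x)) := by
      rw [show (4 : ℝ) = 2 ^ (2 : ℝ) by norm_num, ← Real.rpow_mul (by norm_num)]
      congr 1
      ring
    have h5 : (4 : ℝ)⁻¹ = (2 : ℝ) ^ (-2 : ℝ) := by
      rw [Real.rpow_neg (by norm_num)]
      norm_num
    rw [h4, h5, ← Real.rpow_natCast, ← Real.rpow_add (by norm_num), ← Real.rpow_add (by norm_num)]
    congr 1
    linarith
  rw [e1, integral_sub i1 (i3.const_mul _), integral_const_mul, e2, ← e3]
  ring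

end Pool.Agent.Y79.TQ
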